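import Pool.Agent.Lib_helper33.ASM.Defs2

/-!
# Insertion of a pair of points
-/

set_option autoImplicit false
set_option linter.unusedSectionVars false

namespace Pool.Agent.Lib_helper33.ASM

section k3

variable {ι : Type*} [Finite ι] {E : Type*} [MetricSpace E] {x : ι → E} {ω ω' : Cfg ι}

/-- insertion of a pair of points that will be matched to each other -/
lemma K3p.mt_ins_pair (hx : Gen x) {z z' : ι} (hz : ω z = none) (hz' : ω z' = none) (hne : z ≠ z')
    {b b' : Bool} (hb : b = true ∨ b' = true)
    (h : ∀ y, ω y ≠ none → (b = true ∨ ω y = some true) → dist (x z) (x y) < dist (x z) (x z') →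
      ∃ k, mt x ω y k ∧ dist (x y) (x k) ≤ dist (x z) (x y))
    (h' : ∀ y, ω y ≠ none → (b' = true ∨ ω y = some true) →
      dist (x z') (x y) < dist (x z) (x z') →
      ∃ k, mt x ω y k ∧ dist (x y) (x k) ≤ dist (x z') (x y)) (i j : ι) :
    mt x (ins (ins ω z b) z' b') i j ↔ mt x ω i j ∨ (i = z ∧ j = z') ∨ (i = z' ∧ j = z) := by
  classical
  set w := ins (ins ω z b) z' b' with hw
  have wz : w z = some b := by simp [hw, ins, hne]
  have wz' : w z' = some b' := by simp [hw, ins]
  have wo : ∀ i, i ≠ z → i ≠ z' → w i = ω i := by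
    intro i h1 h2; simp [hw, ins, h1, h2]
  have nz : ∀ {i j}, mt x ω i j → i ≠ z ∧ i ≠ z' ∧ j ≠ z ∧ j ≠ z' := by
    intro i j hm
    have h1 := mt_occ hm
    have h2 := mt_occ (mt_symm hm)
    refine ⟨?_, ?_, ?_, ?_⟩
    · rintro rfl; exact h1 hz
    · rintro rfl; exact h1 hz'
    · rintro rfl; exact h2 hz
    · rintro rfl; exact h2 hz'
  have A : ∀ j, j ≠ z → j ≠ z' → Ok w z j → dist (x z) (x j) ≤ dist (x z) (x z') →
      (∀ k, mt x ω j k → dist (x z) (x j) ≤ dist (x j) (x k)) → False := by
    intro j h1 h2 hok hd hk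
    have hlt : dist (x z) (x j) < dist (x z) (x z') := by
      refine lt_of_le_of_ne hd fun he => ?_
      rcases hx z j z z' (Ne.symm h1) hne he with h3 | h3
      · exact h2 h3.2
      · exact hne h3.1
    have hj : ω j ≠ none := by rw [← wo j h1 h2]; exact hok.2.2.1
    have hcol : b = true ∨ ω j = some true := by
      rcases hok.2.2.2 with h3 | h3
      · left; rw [wz] at h3; exact Option.some.inj h3
      · right; rw [← wo j h1 h2]; exact h3
    obtain ⟨k, hk1, hk2⟩ := h j hj hcol hlt
    have he : dist (x z) (x j) = dist (x j) (x k) := le_antisymm (hk k hk1) hk2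
    rcases hx z j j k (Ne.symm h1) (mt_ok hk1).1 he with h3 | h3
    · exact h1 h3.1.symm
    · exact (nz hk1).2.2.1 h3.1.symm
  have B : ∀ j, j ≠ z → j ≠ z' → Ok w z' j → dist (x z') (x j) ≤ dist (x z) (x z') →
      (∀ k, mt x ω j k → dist (x z') (x j) ≤ dist (x j) (x k)) → False := by
    intro j h1 h2 hok hd hk
    have hlt : dist (x z') (x j) < dist (x z) (x z') := by
      refine lt_of_le_of_ne hd fun he => ?_
      rcases hx z' j z z' (Ne.symm h2) hne he with h3 | h3
      · exact hne h3.1.symm
      · exact h1 h3.2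
    have hj : ω j ≠ none := by rw [← wo j h1 h2]; exact hok.2.2.1
    have hcol : b' = true ∨ ω j = some true := by
      rcases hok.2.2.2 with h3 | h3
      · left; rw [wz'] at h3; exact Option.some.inj h3
      · right; rw [← wo j h1 h2]; exact h3
    obtain ⟨k, hk1, hk2⟩ := h' j hj hcol hlt
    have he : dist (x z') (x j) = dist (x j) (x k) := le_antisymm (hk k hk1) hk2
    rcases hx z' j j k (Ne.symm h2) (mt_ok hk1).1 he with h3 | h3
    · exact h2 h3.1.symm
    · exact (nz hk1).2.2.2 h3.1.symm
  set M : ι → ι → Prop := fun i j => mt x ω i j ∨ (i = z ∧ j = z') ∨ (i = z' ∧ j = z) with hM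
  have hdzz : dist (x z') (x z) = dist (x z) (x z') := dist_comm _ _
  have Mz : ∀ k, M z k ↔ k = z' := by
    intro k
    constructor
    · rintro (h1 | h1 | h1)
      · exact absurd rfl (nz h1).1
      · exact h1.2
      · exact absurd h1.1 hne
    · rintro rfl; exact Or.inr (Or.inl ⟨rfl, rfl⟩)
  have Mz' : ∀ k, M z' k ↔ k = z := by
    intro k
    constructor
    · rintro (h1 | h1 | h1)
      · exact absurd rfl (nz h1).2.1
      · exact absurd h1.1.symm hne
      · exact h1.2
    · rintro rfl; exact Or.inr (Or.inr ⟨rfl, rfl⟩)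
  have Mo : ∀ i k, i ≠ z → i ≠ z' → (M i k ↔ mt x ω i k) := by
    intro i k h1 h2
    constructor
    · rintro (h3 | h3 | h3)
      · exact h3
      · exact absurd h3.1 h1
      · exact absurd h3.1 h2
    · exact Or.inl
  have hker : IsKer x w M := by
    intro i j
    constructor
    · rintro (h1 | ⟨rfl, rfl⟩ | ⟨rfl, rfl⟩)
      · have h2 := nz h1
        have h3 := (mt_isKer x ω i j).1 h1
        refine ⟨⟨h3.1.1, ?_, ?_, ?_⟩, fun k => ⟨fun hk => ?_, fun hk => ?_⟩⟩
        · rw [wo i h2.1 h2.2.1]; exact h3.1.2.1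
        · rw [wo j h2.2.2.1 h2.2.2.2]; exact h3.1.2.2.1
        · rw [wo i h2.1 h2.2.1, wo j h2.2.2.1 h2.2.2.2]; exact h3.1.2.2.2
        · exact (h3.2 k).1 ((Mo i k h2.1 h2.2.1).1 hk)
        · exact (h3.2 k).2 ((Mo j k h2.2.2.1 h2.2.2.2).1 hk)
      · refine ⟨⟨hne, by rw [wz]; simp, by rw [wz']; simp, ?_⟩, fun k => ⟨fun hk => ?_, fun hk => ?_⟩⟩
        · rw [wz, wz']
          rcases hb with rfl | rfl
          · exact Or.inl rfl
          · exact Or.inr rfl
        · rw [(Mz k).1 hk]
        · rw [(Mz' k).1 hk, hdzz]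
      · refine ⟨⟨hne.symm, by rw [wz']; simp, by rw [wz]; simp, ?_⟩,
          fun k => ⟨fun hk => ?_, fun hk => ?_⟩⟩
        · rw [wz, wz']
          rcases hb with rfl | rfl
          · exact Or.inr rfl
          · exact Or.inl rfl
        · rw [(Mz' k).1 hk]
        · rw [(Mz k).1 hk, hdzz]
    · rintro ⟨hok, hk⟩
      by_cases i1 : i = z
      · subst i1
        by_cases j1 : j = z'
        · exact Or.inr (Or.inl ⟨rfl, j1⟩)
        · have hji : j ≠ i := hok.1.symm
          exact (A j hji j1 hok ((hk z').1 ((Mz z').2 rfl))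
            (fun k hm => (hk k).2 ((Mo j k hji j1).2 hm))).elim
      · by_cases i2 : i = z'
        · subst i2
          by_cases j1 : j = z
          · exact Or.inr (Or.inr ⟨rfl, j1⟩)
          · have hji : j ≠ i := hok.1.symm
            refine (B j j1 hji hok ?_ (fun k hm => (hk k).2 ((Mo j k j1 hji).2 hm))).elim
            rw [← hdzz]
            exact (hk z).1 ((Mz' z).2 rfl)
        · by_cases j1 : j = z
          · subst j1
            refine (A i i1 i2 hok.symm ?_ ?_).elim
            · rw [dist_comm (x j) (x i)]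
              exact (hk z').2 ((Mz z').2 rfl)
            · intro k hm
              rw [dist_comm (x j) (x i)]
              exact (hk k).1 ((Mo i k i1 i2).2 hm)
          · by_cases j2 : j = z'
            · subst j2
              refine (B i i1 i2 hok.symm ?_ ?_).elim
              · rw [dist_comm (x j) (x i), ← hdzz]
                exact (hk z).2 ((Mz' z).2 rfl)
              · intro k hm
                rw [dist_comm (x j) (x i)]
                exact (hk k).1 ((Mo i k i1 i2).2 hm)
            · left
              refine (mt_isKer x ω i j).2 ⟨⟨hok.1, ?_, ?_, ?_⟩,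
                fun k => ⟨fun hm => ?_, fun hm => ?_⟩⟩
              · rw [← wo i i1 i2]; exact hok.2.1
              · rw [← wo j j1 j2]; exact hok.2.2.1
              · rw [← wo i i1 i2, ← wo j j1 j2]; exact hok.2.2.2
              · exact (hk k).1 ((Mo i k i1 i2).2 hm)
              · exact (hk k).2 ((Mo j k j1 j2).2 hm)
  have := IsKer.unique (mt_isKer x w) hker
  rw [← this]

end k3

end Pool.Agent.Lib_helper33.ASM
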